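import Pool.Agent.CvK.Col

/-!
# Package CvK-Eqv: equality of classes (page 6.6), representatives of all classes (6.5)

`rep_eqv`: (⇐) `g W' = g' W` gives `g a2 = g' a1` (`rep_gen`), `cl_eq`. (⇒) `g ∈ E (2M) ∩ W`
(`rep_g`),
`a1 b1 = g R` (`compl`), `cl (b1 a2) = 1`, `cl_gen`: `b1 a2 = g' R` with `g' ∈ E N'`, `d N' =
colen (b1 a2) = 2 d M`, so
`N' = 2 M`; `g a2 = a1 b1 a2 = g' a1`. For `t ∈ W' = cut a2 (2M)`: `g t ∈ g' a1`, `g t ∈ V (4M)`,
`E_dvd`:
`g t = g' s` with `s ∈ V (2M)`, and `s ∈ a1` (cancel `g'`). The other inclusion in the same way.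

`rep_surj`: for `c` in `Gr` (degree `0` modulo `d`) there is an ideal of colength `d M` in the
class (`card_cls`, the
number is not `0`; `d M ≥ n1`).
`rep_gr`: the class of a represented ideal is in `Gr` (`dg_cl`).
-/

set_option autoImplicit false

namespace Pool.Agent.CvK

open Pool.Agent.CvA Pool.Agent.CvR Pool.Agent.CvI Pool.Agent.CvP

variable {k A B : Type} [Field k] [CommRing A] [IsDomain A] [Algebra k A] [CommRing B]
  [Algebra k B] {d : ℕ} {F : Flt k A B d} (P : Md F) {R : Type} [CommRing R] [IsDedekindDomain R]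
  [Algebra k R] [Algebra A R] [IsScalarTower k A R] [IsLocalization.Away P.D R]

omit [IsDomain A] [IsDedekindDomain R] [Algebra k R] [IsScalarTower k A R]
  [IsLocalization.Away P.D R] in
private theorem mem_cut_Eqv {a : Ideal R} {N : ℕ} {w : A} :
    w ∈ F.cut a N ↔ w ∈ F.V N ∧ algebraMap A R w ∈ a := Iff.rfl

private theorem one_Eqv : Multiplicative.ofAdd (((d * P.M : ℕ) : ZMod d)) = 1 := by
  rw [Nat.cast_mul, ZMod.natCast_self, zero_mul, ofAdd_zero]

private theorem half_Eqv {a1 a2 : Ideal R} {g g' : A} (hg : g ∈ P.E (2 * P.M))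
    (hg' : g' ∈ P.E (2 * P.M)) (e : Ideal.span {algebraMap A R g} * a2 =
      Ideal.span {algebraMap A R g'} * a1) :
    ∀ w ∈ F.cut a2 (2 * P.M), ∃ s ∈ F.cut a1 (2 * P.M), g * w = g' * s := by
  intro w hw
  have h1 : algebraMap A R (g * w) ∈ Ideal.span {algebraMap A R g'} * a1 := by
    rw [← e, map_mul]
    exact Ideal.mul_mem_mul (Ideal.mem_span_singleton_self _) hw.2
  rw [Ideal.mem_span_singleton_mul] at h1
  obtain ⟨r, hr, h2⟩ := h1
  have h3 : g * w ∈ F.V (2 * P.M + 2 * P.M) := F.mul hg.1 hw.1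
  obtain ⟨s, hs, h4⟩ := E_dvd (R := R) P hg' h3 ⟨r, h2.symm⟩
  refine ⟨s, ⟨hs, ?_⟩, h4⟩
  have h5 : algebraMap A R g' * algebraMap A R s = algebraMap A R g' * r := by
    rw [h2, h4, map_mul]
  have h6 := mul_left_cancel₀ (E_ne (R := R) P hg') h5
  show algebraMap A R s ∈ a1
  rw [h6]
  exact hr

private theorem le_Eqv {W W' : Submodule k A} {a1 a2 : Ideal R} (h1 : Rep P W a1)
    (h2 : Rep P W' a2) {g g' : A} (h : ∀ w ∈ W', ∃ s ∈ W, g * w = g' * s) :
    Ideal.span {algebraMap A R g} * a2 ≤ Ideal.span {algebraMap A R g'} * a1 := by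
  rw [← rep_gen P h2, Ideal.span_mul_span', Ideal.span_le]
  rintro _ ⟨x, hx, _, ⟨w, hw, rfl⟩, rfl⟩
  rw [Set.mem_singleton_iff] at hx
  subst hx
  obtain ⟨s, hs, e⟩ := h w hw
  show algebraMap A R g * algebraMap A R w ∈ Ideal.span {algebraMap A R g'} * a1
  rw [← map_mul, e, map_mul]
  refine Ideal.mul_mem_mul (Ideal.mem_span_singleton_self _) ?_
  rw [h1.2.2] at hs
  exact hs.2

theorem rep_eqv {W W' : Submodule k A} {a1 a2 : Ideal R} (h1 : Rep P W a1) (h2 : Rep P W' a2) :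
    cl P a1 = cl P a2 ↔ ∃ g ∈ P.E (2 * P.M), ∃ g' ∈ P.E (2 * P.M),
      (∀ w ∈ W', ∃ s ∈ W, g * w = g' * s) ∧ (∀ w ∈ W, ∃ s ∈ W', g' * w = g * s) := by
  constructor
  · intro h
    obtain ⟨g, hg, hgW⟩ := rep_g P h1
    rw [h1.2.2] at hgW
    obtain ⟨b1, hb1, e1, e2, e3⟩ := compl P h1.1 hg hgW.2
    have hne : b1 * a2 ≠ ⊥ := mul_ne_zero hb1 h2.1
    have hcl : cl P (b1 * a2) = 1 := by
      rw [cl_mul P hb1 h2.1, ← h, mul_comm]
      exact e3
    obtain ⟨N, g', hg', e4, e5⟩ := cl_gen P hne hcl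
    have hd : 0 < d := F.one_le
    have e6 : colen k (b1 * a2) = colen k b1 + colen k a2 :=
      colen_mul (fun I hI => fin_quot P hI) hb1 h2.1
    have hN : N = 2 * P.M := by
      have e7 := h1.2.1
      have e8 := h2.2.1
      have e9 : d * N = d * (2 * P.M) := by
        rw [← e5, e6, e8, ← e2, e7]
        omega
      exact Nat.eq_of_mul_eq_mul_left hd e9
    subst hN
    have e10 : Ideal.span {algebraMap A R g} * a2 = Ideal.span {algebraMap A R g'} * a1 := by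
      rw [← e1, ← e4, mul_assoc, mul_comm]
    refine ⟨g, hg, g', hg', ?_, ?_⟩
    · rw [h1.2.2, h2.2.2]
      exact half_Eqv P hg hg' e10
    · rw [h1.2.2, h2.2.2]
      exact half_Eqv P hg' hg e10.symm
  · rintro ⟨g, hg, g', hg', h3, h4⟩
    rw [cl_eq P h1.1 h2.1]
    exact ⟨_, _, g', g, hg', hg, le_antisymm (le_Eqv P h2 h1 h4) (le_Eqv P h1 h2 h3)⟩

theorem rep_surj [Finite k] (c : Gr P R) :
    ∃ (W : Submodule k A) (a : Ideal R), Rep P W a ∧ cl P a = c := by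
  have h1 : P.n1 ≤ d * P.M := by
    unfold Md.n1 Md.M
    nlinarith [Nat.zero_le (d ^ 3)]
  have h2 : dg P (c : Cl P R) = Multiplicative.ofAdd (((d * P.M : ℕ) : ZMod d)) := by
    rw [one_Eqv]
    exact c.2
  have h3 := card_cls P (c : Cl P R) h1 h2
  have hq : Nat.card k ≠ 0 := Nat.card_ne_zero.2 ⟨inferInstance, inferInstance⟩
  have h4 : Nat.card {b : Ideal R // b ≠ ⊥ ∧ colen k b = d * P.M ∧ cl P b = (c : Cl P R)} ≠ 0 := by
    intro h0
    rw [h0, zero_mul] at h3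
    exact pow_ne_zero _ hq h3.symm
  obtain ⟨⟨b, hb1, hb2, hb3⟩⟩ := (Nat.card_ne_zero.1 h4).1
  exact ⟨_, b, ⟨hb1, hb2, rfl⟩, hb3⟩

theorem rep_gr {W : Submodule k A} {a : Ideal R} (h : Rep P W a) : cl P a ∈ Gr P R := by
  rw [MonoidHom.mem_ker, dg_cl P h.1, h.2.1]
  exact one_Eqv P

end Pool.Agent.CvK
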