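import Pool.Agent.CvK.Col

/-!
# Package CvK-Law: the law (page 6.4)

`law_T`: `g1 ∈ E (2M) ∩ W`, `g2 ∈ E (2M) ∩ W'`, `a_i b_i = g_i R` (`compl`), `colen b_i = d M`.
`IsT` says that
`T = cut (b1 * b2) (3 M)`: the products `w w'` generate `a1 a2` (`rep_gen`;
`Ideal.span_mul_span`); as in `colon`:
`t ∈ b1 b2` iff `t a1 a2 ⊆ g1 g2 R = a1 a2 b1 b2`, iff `t w w' ∈ g1 g2 R` for all `w, w'`, iff `t
w w' = g1 g2 s`
with `s ∈ V (3 M)` (`E_dvd` for `g1 g2 ∈ E (4 M)`, `t w w' ∈ V (3M + 2M + 2M)`).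

`exists_g3`: `T = cut (b1 b2) (3M)`, `colen (b1 b2) = 2 d M`, `2 d M + n1 ≤ 3 d M`: `exists_E`.

`law`: `T` generates `b1 b2` (`cut_gen`, `3 d M ≥ 2 d M + 2 d ^ 3 + d`). `c` with `b1 b2 c = g3
R` (`compl`),
`colen c = d M`; `colon` with `U = T`, `L0 = 3M`, `L1 = 2M`, `G = 3M`, `S = 2M`: `W'' = cut c (2
M)`, so `Rep W'' c`. Classes:
`cl (b1 b2) * cl c = 1`, `cl a_i * cl b_i = 1`, so `cl c = cl a1 * cl a2`.
-/

set_option autoImplicit false

namespace Pool.Agent.CvK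

open Pool.Agent.CvA Pool.Agent.CvR Pool.Agent.CvI Pool.Agent.CvP

variable {k A B : Type} [Field k] [CommRing A] [IsDomain A] [Algebra k A] [CommRing B]
  [Algebra k B] {d : ℕ} {F : Flt k A B d} (P : Md F) {R : Type} [CommRing R] [IsDedekindDomain R]
  [Algebra k R] [Algebra A R] [IsScalarTower k A R] [IsLocalization.Away P.D R]

omit [IsDomain A] [IsDedekindDomain R] [Algebra k R] [IsScalarTower k A R]
  [IsLocalization.Away P.D R] in
/-- the products of generators generate the product -/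
private theorem span_mul_Law {W W' : Submodule k A} {a1 a2 : Ideal R}
    (h1 : Ideal.span (algebraMap A R '' (W : Set A)) = a1)
    (h2 : Ideal.span (algebraMap A R '' (W' : Set A)) = a2) :
    Ideal.span (algebraMap A R '' ((W * W' : Submodule k A) : Set A)) = a1 * a2 := by
  apply le_antisymm
  · rw [Ideal.span_le]
    rintro _ ⟨x, hx, rfl⟩
    have hx' : x ∈ W * W' := hx
    refine Submodule.mul_induction_on hx' ?_ ?_
    · intro w hw w' hw'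
      rw [map_mul]
      apply Ideal.mul_mem_mul
      · rw [← h1]
        exact Ideal.subset_span ⟨w, hw, rfl⟩
      · rw [← h2]
        exact Ideal.subset_span ⟨w', hw', rfl⟩
    · intro x y hx hy
      rw [map_add]
      exact add_mem hx hy
  · rw [← h1, ← h2, Ideal.span_mul_span', Ideal.span_le]
    rintro _ ⟨_, ⟨w, hw, rfl⟩, _, ⟨w', hw', rfl⟩, rfl⟩
    refine Ideal.subset_span ⟨w * w', Submodule.mul_mem_mul hw hw', ?_⟩
    rw [map_mul]

theorem law_T {W W' T : Submodule k A} {a1 a2 b1 b2 : Ideal R} (h1 : Rep P W a1)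
    (h2 : Rep P W' a2) {g1 g2 : A} (hg1 : g1 ∈ P.E (2 * P.M)) (hg2 : g2 ∈ P.E (2 * P.M))
    (hb1 : a1 * b1 = Ideal.span {algebraMap A R g1})
    (hb2 : a2 * b2 = Ideal.span {algebraMap A R g2}) (hT : IsT P W W' g1 g2 T) :
    T = F.cut (b1 * b2) (3 * P.M) := by
  have hU : W * W' ≤ F.V (2 * P.M + 2 * P.M) := by
    rw [Submodule.mul_le]
    intro w hw w' hw'
    rw [h1.2.2] at hw
    rw [h2.2.2] at hw'
    exact F.mul hw.1 hw'.1
  have hne : a1 * a2 ≠ ⊥ := mul_ne_zero h1.1 h2.1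
  have hspan := span_mul_Law (R := R) (rep_gen P h1) (rep_gen P h2)
  have hab : a1 * a2 * (b1 * b2) = Ideal.span {algebraMap A R (g1 * g2)} := by
    rw [mul_mul_mul_comm, hb1, hb2, Ideal.span_singleton_mul_span_singleton, map_mul]
  have hE : g1 * g2 ∈ P.E (2 * P.M + 2 * P.M) := E_mul P hg1 hg2
  ext t
  rw [hT t]
  constructor
  · rintro ⟨ht, h⟩
    refine ⟨ht, ?_⟩
    refine (colon P hU hne hspan hE hab (S := 3 * P.M) (by ring) ht).2 ?_
    intro u hu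
    refine Submodule.mul_induction_on hu ?_ ?_
    · intro w hw w' hw'
      obtain ⟨s, hs, e⟩ := h w hw w' hw'
      exact ⟨s, hs, by rw [← e, mul_assoc]⟩
    · rintro x y ⟨s, hs, e⟩ ⟨s', hs', e'⟩
      exact ⟨s + s', add_mem hs hs', by rw [mul_add, e, e', mul_add]⟩
  · rintro ⟨ht, h⟩
    have h3 := (colon P hU hne hspan hE hab (S := 3 * P.M) (by ring) ht).1 h
    refine ⟨ht, ?_⟩
    intro w hw w' hw'
    obtain ⟨s, hs, e⟩ := h3 (w * w') (Submodule.mul_mem_mul hw hw')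
    exact ⟨s, hs, by rw [mul_assoc, e]⟩

/-- the complements of the two ideals -/
private theorem exists_b_Law {W W' : Submodule k A} {a1 a2 : Ideal R} (h1 : Rep P W a1)
    (h2 : Rep P W' a2) {g1 g2 : A} (hg1 : g1 ∈ P.E (2 * P.M)) (hs1 : g1 ∈ W)
    (hg2 : g2 ∈ P.E (2 * P.M)) (hs2 : g2 ∈ W') :
    ∃ b1 b2 : Ideal R, a1 * b1 = Ideal.span {algebraMap A R g1} ∧
      a2 * b2 = Ideal.span {algebraMap A R g2} ∧ b1 ≠ ⊥ ∧ b2 ≠ ⊥ ∧
      colen k (b1 * b2) = 2 * (d * P.M) ∧ cl P a1 * cl P b1 = 1 ∧ cl P a2 * cl P b2 = 1 := by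
  rw [h1.2.2] at hs1
  rw [h2.2.2] at hs2
  obtain ⟨b1, hn1, he1, hc1, hcl1⟩ := compl P h1.1 hg1 hs1.2
  obtain ⟨b2, hn2, he2, hc2, hcl2⟩ := compl P h2.1 hg2 hs2.2
  refine ⟨b1, b2, he1, he2, hn1, hn2, ?_, hcl1, hcl2⟩
  have e1 := h1.2.1
  have e2 := h2.2.1
  have e3 : d * (2 * P.M) = 2 * (d * P.M) := by ring
  have hq : FinQ k R := fun I hI => fin_quot P hI
  rw [colen_mul hq hn1 hn2]
  omega

omit [IsDomain A] in
private theorem dM_Law : d * P.M = 2 * d ^ 3 + d + d * P.Dl := by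
  unfold Md.M
  ring

theorem exists_g3 {W W' T : Submodule k A} {a1 a2 : Ideal R} (h1 : Rep P W a1)
    (h2 : Rep P W' a2) {g1 g2 : A} (hg1 : g1 ∈ P.E (2 * P.M)) (hs1 : g1 ∈ W)
    (hg2 : g2 ∈ P.E (2 * P.M)) (hs2 : g2 ∈ W') (hT : IsT P W W' g1 g2 T) :
    ∃ g ∈ P.E (3 * P.M), g ∈ T := by
  obtain ⟨b1, b2, he1, he2, hn1, hn2, hc, -, -⟩ := exists_b_Law P h1 h2 hg1 hs1 hg2 hs2
  have hTe := law_T P h1 h2 hg1 hg2 he1 he2 hT
  have hne : b1 * b2 ≠ ⊥ := mul_ne_zero hn1 hn2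
  have hle : colen k (b1 * b2) + P.n1 ≤ d * (3 * P.M) := by
    have e3 : d * (3 * P.M) = 3 * (d * P.M) := by ring
    have e4 := dM_Law P
    unfold Md.n1
    omega
  obtain ⟨g, hg, hgb⟩ := exists_E P hne hle
  refine ⟨g, hg, ?_⟩
  rw [hTe]
  exact ⟨hg.1, hgb⟩

theorem law {W W' T W'' : Submodule k A} {a1 a2 : Ideal R} (h1 : Rep P W a1)
    (h2 : Rep P W' a2) {g1 g2 g3 : A} (hg1 : g1 ∈ P.E (2 * P.M)) (hs1 : g1 ∈ W)
    (hg2 : g2 ∈ P.E (2 * P.M)) (hs2 : g2 ∈ W') (hT : IsT P W W' g1 g2 T)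
    (hg3 : g3 ∈ P.E (3 * P.M)) (hs3 : g3 ∈ T) (hW : IsW P T g3 W'') :
    ∃ c : Ideal R, Rep P W'' c ∧ cl P c = cl P a1 * cl P a2 := by
  obtain ⟨b1, b2, he1, he2, hn1, hn2, hc, hcl1, hcl2⟩ :=
    exists_b_Law P h1 h2 hg1 hs1 hg2 hs2
  have hTe := law_T P h1 h2 hg1 hg2 he1 he2 hT
  have hne : b1 * b2 ≠ ⊥ := mul_ne_zero hn1 hn2
  have e3 : d * (3 * P.M) = 3 * (d * P.M) := by ring
  have e4 := dM_Law P
  have hle : colen k (b1 * b2) + 2 * d ^ 3 + d ≤ d * (3 * P.M) := by omega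
  have hgen := cut_gen P hne hle
  rw [← hTe] at hgen
  have hs3' : algebraMap A R g3 ∈ b1 * b2 := by
    rw [hTe] at hs3
    exact hs3.2
  obtain ⟨c, hnc, hec, hcc, hclc⟩ := compl P hne hg3 hs3'
  refine ⟨c, ⟨hnc, by omega, ?_⟩, ?_⟩
  · have hU : T ≤ F.V (3 * P.M) := by
      rw [hTe]
      intro t ht
      exact ht.1
    ext t
    rw [hW t]
    constructor
    · rintro ⟨ht, h⟩
      exact ⟨ht, (colon P hU hne hgen hg3 hec (S := 2 * P.M) (by ring) ht).2 h⟩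
    · rintro ⟨ht, h⟩
      exact ⟨ht, (colon P hU hne hgen hg3 hec (S := 2 * P.M) (by ring) ht).1 h⟩
  · rw [cl_mul P hn1 hn2] at hclc
    have h5 : cl P c = cl P c * (cl P a1 * cl P b1) * (cl P a2 * cl P b2) := by
      rw [hcl1, hcl2, mul_one, mul_one]
    calc cl P c = cl P c * (cl P a1 * cl P b1) * (cl P a2 * cl P b2) := h5
      _ = (cl P b1 * cl P b2 * cl P c) * (cl P a1 * cl P a2) := by
        simp only [mul_comm, mul_left_comm]
      _ = cl P a1 * cl P a2 := by rw [hclc, one_mul]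

end Pool.Agent.CvK
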