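import Pool.Agent.CvK.Col

/-!
# Package CvK-Mem: which subspaces represent ideals (page 6.7)

`rep_iff`: the subspace `W` of `V (2M)` represents an ideal iff `finrank W ≥ d M + 1 - pa`, and
there is
`g ∈ E (2M) ∩ W` such that the space of the `t ∈ V (2M)` with `t W ⊆ g V (2M)` (`Cg W g`) has
dimension `≥ d M + 1 - pa`.

(⇒) `rep_g`; the dimension of `cut a (2M)` is `d M + 1 - pa` (`cut_dim`); `compl` gives `b` with
`a b = g R`,
`colen b = d M`, and `Cg W g = cut b (2M)` by `colon` (`L0 = L1 = G = S = 2M`).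
(⇐) `a = span W ≠ ⊥` (it contains `g ≠ 0`), `c = colen a`, `compl`: `a b = g R`, `c + colen b = 2
d M`.
`Cg W g = cut b (2M)` by `colon`. If `c < d ^ 3` then `2 d M < colen b + d ^ 3`, so
`finrank (cut b (2M)) ≤ d ^ 3 + d` (`cut_up`), but `d M + 1 - pa = 2 d ^ 3 + d + d Dl + 1 - pa >
d ^ 3 + d`
(`pa_le`). So `c ≥ d ^ 3` and `cut_dim` for `b`: `d M + 1 - pa ≤ c + 1 - pa`, so `d M ≤ c`. `W ≤
cut a (2M)`; if
`2 d M < c + d ^ 3` then `cut_up` for `a` gives a contradiction in the same way; else `cut_dim`: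
`d M + 1 - pa ≤ 2 d M + 1 - pa - c`, so `c ≤ d M`. Hence `c = d M` and
`W = cut a (2M)` by dimension (`Submodule.eq_of_le_of_finrank_le`).
-/

set_option autoImplicit false

namespace Pool.Agent.CvK

open Pool.Agent.CvA Pool.Agent.CvR Pool.Agent.CvI Pool.Agent.CvP

variable {k A B : Type} [Field k] [CommRing A] [IsDomain A] [Algebra k A] [CommRing B]
  [Algebra k B] {d : ℕ} {F : Flt k A B d} (P : Md F)

/-- the space of the `t ∈ V (2M)` with `t W ⊆ g V (2M)` -/
def Cg (W : Submodule k A) (g : A) : Submodule k A where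
  carrier := {t | t ∈ F.V (2 * P.M) ∧ ∀ w ∈ W, ∃ s ∈ F.V (2 * P.M), t * w = g * s}
  add_mem' := by
    rintro t t' ⟨h1, h2⟩ ⟨h3, h4⟩
    refine ⟨Submodule.add_mem _ h1 h3, fun w hw => ?_⟩
    obtain ⟨s, hs, e⟩ := h2 w hw
    obtain ⟨s', hs', e'⟩ := h4 w hw
    exact ⟨s + s', Submodule.add_mem _ hs hs', by rw [add_mul, e, e', mul_add]⟩
  zero_mem' := ⟨Submodule.zero_mem _, fun w _ => ⟨0, Submodule.zero_mem _, by simp⟩⟩
  smul_mem' := by
    rintro c t ⟨h1, h2⟩
    refine ⟨Submodule.smul_mem _ _ h1, fun w hw => ?_⟩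
    obtain ⟨s, hs, e⟩ := h2 w hw
    exact ⟨c • s, Submodule.smul_mem _ _ hs, by rw [smul_mul_assoc, e, mul_smul_comm]⟩

variable (R : Type) [CommRing R] [IsDedekindDomain R]
  [Algebra k R] [Algebra A R] [IsScalarTower k A R] [IsLocalization.Away P.D R]

omit [IsDomain A] in
private theorem num_Mem : pa d ≤ d ^ 3 ∧
    d * (2 * P.M) = 2 * (d * P.M) ∧ d * P.M = 2 * d ^ 3 + d + d * P.Dl := by
  refine ⟨(pa_le d).trans (Nat.pow_le_pow_right F.one_le (by norm_num)), by ring, ?_⟩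
  unfold Md.M
  ring

omit [IsDomain A] in
private theorem fin_Mem (F : Flt k A B d) {N : ℕ} {S : Submodule k A} (hS : S ≤ F.V N) :
    FiniteDimensional k S :=
  have := F.fin N
  Submodule.finiteDimensional_of_le hS

theorem rep_iff {W : Submodule k A} (hW : W ≤ F.V (2 * P.M)) : (∃ a : Ideal R, Rep P W a) ↔
    d * P.M + 1 - pa d ≤ Module.finrank k W ∧ ∃ g ∈ P.E (2 * P.M), g ∈ W ∧
      d * P.M + 1 - pa d ≤ Module.finrank k (Cg P W g) := by
  obtain ⟨hpa, h2M, hM⟩ := num_Mem P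
  have hcg : ∀ g : A, Cg P W g ≤ F.V (2 * P.M) := fun g t ht => ht.1
  have hcut : ∀ I : Ideal R, F.cut I (2 * P.M) ≤ F.V (2 * P.M) := fun I => inf_le_left
  constructor
  · rintro ⟨a, h⟩
    obtain ⟨g, hgE, hgW⟩ := rep_g P h
    have hgen := rep_gen P h
    obtain ⟨ha, hc, hWe⟩ := h
    have h1 := cut_dim P ha (N := 2 * P.M) (by omega)
    rw [← hWe] at h1
    refine ⟨by omega, g, hgE, hgW, ?_⟩
    have hga : algebraMap A R g ∈ a := by
      have h2 : g ∈ F.cut a (2 * P.M) := hWe ▸ hgW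
      exact h2.2
    obtain ⟨b, hb, hab, hcol, -⟩ := compl P ha hgE hga
    have h3 := cut_dim P hb (N := 2 * P.M) (by omega)
    have h4 : F.cut b (2 * P.M) ≤ Cg P W g := by
      intro t ht
      have ht2 : algebraMap A R t ∈ b := ht.2
      exact ⟨ht.1, (colon P hW ha hgen hgE hab (L1 := 2 * P.M) (S := 2 * P.M) rfl ht.1).1 ht2⟩
    have := fin_Mem F (hcg g)
    have h5 := Submodule.finrank_mono h4
    omega
  · rintro ⟨hWd, g, hgE, hgW, hCd⟩
    set a : Ideal R := Ideal.span (algebraMap A R '' (W : Set A)) with hadef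
    have hga : algebraMap A R g ∈ a := Ideal.subset_span ⟨g, hgW, rfl⟩
    have ha : a ≠ ⊥ := by
      intro h0
      rw [h0, Ideal.mem_bot] at hga
      exact E_ne P hgE hga
    obtain ⟨b, hb, hab, hcol, -⟩ := compl P ha hgE hga
    have h4 : Cg P W g ≤ F.cut b (2 * P.M) := by
      intro t ht
      refine ⟨ht.1, ?_⟩
      exact (colon P hW ha hadef.symm hgE hab (L1 := 2 * P.M) (S := 2 * P.M) rfl ht.1).2 ht.2
    have h5 : W ≤ F.cut a (2 * P.M) := fun w hw =>
      ⟨hW hw, Ideal.subset_span ⟨w, hw, rfl⟩⟩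
    have hfb := fin_Mem F (hcut b)
    have hfa := fin_Mem F (hcut a)
    have h6 := Submodule.finrank_mono h4
    have h7 := Submodule.finrank_mono h5
    have hb1 : colen k b ≤ d * P.M := by
      by_cases hlt : d * (2 * P.M) < colen k b + d ^ 3
      · have h8 := cut_up P hb hlt
        omega
      · have h8 := cut_dim P hb (N := 2 * P.M) (by omega)
        omega
    have ha1 : colen k a ≤ d * P.M := by
      by_cases hlt : d * (2 * P.M) < colen k a + d ^ 3
      · have h8 := cut_up P ha hlt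
        omega
      · have h8 := cut_dim P ha (N := 2 * P.M) (by omega)
        omega
    have ha2 : colen k a = d * P.M := by omega
    refine ⟨a, ha, ha2, ?_⟩
    have h8 := cut_dim P ha (N := 2 * P.M) (by omega)
    exact Submodule.eq_of_le_of_finrank_le h5 (by omega)

end Pool.Agent.CvK
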