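import Pool.Agent.CvP.Num

/-!
# ALL CURVES: ideals represented by subspaces (definitions, page section 6)

A subspace `W` of `A` represents the ideal `a` of `R` if `a` has colength `d M` and `W = V (2 M)
∩ a`. Law of
Khuri-Makdisi: `IsT`, `IsW`.
-/

set_option autoImplicit false

namespace Pool.Agent.CvK

open Pool.Agent.CvA Pool.Agent.CvR Pool.Agent.CvI Pool.Agent.CvP

variable {k A B : Type} [Field k] [CommRing A] [IsDomain A] [Algebra k A] [CommRing B]
  [Algebra k B] {d : ℕ} {F : Flt k A B d} (P : Md F) {R : Type} [CommRing R] [IsDedekindDomain R]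
  [Algebra k R] [Algebra A R] [IsScalarTower k A R] [IsLocalization.Away P.D R]

/-- the subspace `W` represents the ideal `a` -/
def Rep (W : Submodule k A) (a : Ideal R) : Prop :=
  a ≠ ⊥ ∧ colen k a = d * P.M ∧ W = F.cut a (2 * P.M)

/-- `T` is the space of the `t ∈ V (3 M)` with `t W W' ⊆ g1 g2 V (3 M)` -/
def IsT (W W' : Submodule k A) (g1 g2 : A) (T : Submodule k A) : Prop :=
  ∀ t, t ∈ T ↔ t ∈ F.V (3 * P.M) ∧
    ∀ w ∈ W, ∀ w' ∈ W', ∃ s ∈ F.V (3 * P.M), t * w * w' = g1 * g2 * s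

/-- `W''` is the space of the `t ∈ V (2 M)` with `t T ⊆ g3 V (2 M)` -/
def IsW (T : Submodule k A) (g3 : A) (W'' : Submodule k A) : Prop :=
  ∀ t, t ∈ W'' ↔ t ∈ F.V (2 * P.M) ∧ ∀ u ∈ T, ∃ s ∈ F.V (2 * P.M), t * u = g3 * s

end Pool.Agent.CvK
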