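import Pool.Agent.CvK.Defs

/-!
# Package CvK-Col: colon spaces (page 6.2, 6.3)

`span_cut`: for `colen a + 2 d ^ 3 + d ≤ d L`: the ideal generated by `cut a L` is `a`
(`cut_gen`, restated).
`rep_gen`: `Rep W a` implies `span W = a` (`d M = 2 d ^ 3 + d + d Dl`).
`rep_g`: `E (2 M) ∩ W` is not empty (`exists_E`: `d M + n1 ≤ 2 d M`).

`colon`: `U` a subspace of `V L0` which generates the ideal `a ≠ ⊥`, `g ∈ E (L + L0 - L1)`-like:
precisely
`g ∈ E G`, `a * b = g R`, `L1 + L0 = G + S`: for `t ∈ V L1`: `t ∈ b` iff for every `u ∈ U` there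
is `s ∈ V S` with
`t u = g s`. Proof: `t ∈ b` iff `t a ⊆ a b = g R` (cancel the ideal `a`: `span {t} * a ≤ b * a`,
`Ideal.mul_le_mul_iff`-like for Dedekind domains, `Ideal.dvd_iff_le`, `mul_dvd_mul_iff_left`), iff
`t u ∈ g R` for all `u ∈ U` (`a` is the span), iff `t u = g s` with `s ∈ V S` (`E_dvd`, `t u ∈ V
(L1 + L0)`).
-/

set_option autoImplicit false

namespace Pool.Agent.CvK

open Pool.Agent.CvA Pool.Agent.CvR Pool.Agent.CvI Pool.Agent.CvP

variable {k A B : Type} [Field k] [CommRing A] [IsDomain A] [Algebra k A] [CommRing B]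
  [Algebra k B] {d : ℕ} {F : Flt k A B d} (P : Md F) {R : Type} [CommRing R] [IsDedekindDomain R]
  [Algebra k R] [Algebra A R] [IsScalarTower k A R] [IsLocalization.Away P.D R]

omit [IsDomain A] [Algebra k R] [IsScalarTower k A R] [IsDedekindDomain R] in
private theorem mem_cut_Col {b : Ideal R} {N : ℕ} {x : A} :
    x ∈ F.cut b N ↔ x ∈ F.V N ∧ algebraMap A R x ∈ b := Iff.rfl

omit [IsDomain A] in
private theorem dM_Col : d * P.M = 2 * d ^ 3 + d + d * P.Dl := by
  unfold Md.M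
  ring

theorem rep_gen {W : Submodule k A} {a : Ideal R} (h : Rep P W a) :
    Ideal.span (algebraMap A R '' (W : Set A)) = a := by
  obtain ⟨h1, h2, rfl⟩ := h
  refine cut_gen P h1 ?_
  have h3 := dM_Col P
  have h4 : d * (2 * P.M) = d * P.M + d * P.M := by ring
  rw [h2, h4]
  omega

theorem rep_g {W : Submodule k A} {a : Ideal R} (h : Rep P W a) : ∃ g ∈ P.E (2 * P.M), g ∈ W := by
  obtain ⟨h1, h2, rfl⟩ := h
  obtain ⟨g, hg, hga⟩ := exists_E P h1 (N := 2 * P.M) (by
    have h3 := dM_Col P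
    have h4 : d * (2 * P.M) = d * P.M + d * P.M := by ring
    have h5 : P.n1 = d ^ 3 + d + d * P.Dl := rfl
    rw [h2, h4, h5]
    omega)
  exact ⟨g, hg, mem_cut_Col.2 ⟨hg.1, hga⟩⟩

theorem colon {U : Submodule k A} {L0 L1 G S : ℕ} (hU : U ≤ F.V L0) {a b : Ideal R} (ha : a ≠ ⊥)
    (hg : Ideal.span (algebraMap A R '' (U : Set A)) = a) {g : A} (hgE : g ∈ P.E G)
    (hab : a * b = Ideal.span {algebraMap A R g}) (hS : L1 + L0 = G + S) {t : A}
    (ht : t ∈ F.V L1) :
    algebraMap A R t ∈ b ↔ ∀ u ∈ U, ∃ s ∈ F.V S, t * u = g * s := by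
  constructor
  · intro h u hu
    have h1 : algebraMap A R u ∈ a := by
      rw [← hg]
      exact Ideal.subset_span ⟨u, hu, rfl⟩
    have h2 : algebraMap A R u * algebraMap A R t ∈ Ideal.span {algebraMap A R g} := by
      rw [← hab]
      exact Ideal.mul_mem_mul h1 h
    rw [Ideal.mem_span_singleton, ← map_mul, mul_comm u t] at h2
    have h3 : t * u ∈ F.V (G + S) := by
      rw [← hS]
      exact F.mul ht (hU hu)
    exact E_dvd P hgE h3 h2
  · intro h
    have h1 : Ideal.span {algebraMap A R t} * a ≤ a * b := by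
      rw [hab, ← hg, Ideal.span_mul_span', Ideal.span_le]
      rintro _ ⟨x, hx, y, ⟨u, hu, rfl⟩, rfl⟩
      obtain rfl := Set.mem_singleton_iff.1 hx
      obtain ⟨s, -, hs⟩ := h u hu
      show algebraMap A R t * algebraMap A R u ∈ Ideal.span {algebraMap A R g}
      rw [Ideal.mem_span_singleton, ← map_mul, hs, map_mul]
      exact dvd_mul_right _ _
    rw [mul_comm (Ideal.span _) a, ← Ideal.dvd_iff_le, mul_dvd_mul_iff_left
      (show a ≠ 0 from ha), Ideal.dvd_iff_le] at h1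
    exact h1 (Ideal.mem_span_singleton_self _)

end Pool.Agent.CvK
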